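import Pool.Agent.Lib_MP_390115_uh.Fin2

/-!
# `b n ≤ 2 ^ ((1 / 2 + o(1)) n)`
-/

open Filter
open Pool.Agent.Lib_MP_390115_co (IsCoverUniversal b b_spec)

namespace Pool.Agent.Results.MP_390115_co.HalfExponent

/-- The least size `b n` of a finite ordered set containing every ordered set with at most `n`
elements as a covering subset is attained; for every `ε > 0` and all sufficiently large `n`,
`b n ≤ 2 ^ ((1 / 2 + ε) n)`. -/
theorem result :
    (∀ n : ℕ, IsLeast {m : ℕ | ∃ (P : Type) (_ : PartialOrder P) (_ : Fintype P),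
      Fintype.card P = m ∧ IsCoverUniversal n P} (b n)) ∧
    ∀ ε : ℝ, 0 < ε → ∀ᶠ n : ℕ in atTop, (b n : ℝ) ≤ (2 : ℝ) ^ ((1 / 2 + ε) * n) :=
  ⟨fun n => ⟨b_spec n, fun _ hm => Nat.sInf_le hm⟩, Pool.Agent.BHalf.b_half⟩

end Pool.Agent.Results.MP_390115_co.HalfExponent
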