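import Pool.Agent.Lib_MP_390115_co.Lower

/-!
# `b n ≥ 2 ^ ((κ - o(1)) n)` with `κ = (3 - 2 √2) log₂ 3 = 0.2719... > 1/4`
-/

open Filter Topology
open Pool.Agent.Lib_MP_390115_co (b pow_le)

namespace Pool.Agent.Results.MP_390115_co.LowerExponent

/-- For every `ε > 0` and all sufficiently large `n`, `b n ≥ 2 ^ ((κ - ε) n)`, where
`κ = (3 - 2 √2) log₂ 3`. -/
theorem result : ∀ ε : ℝ, 0 < ε → ∀ᶠ n : ℕ in atTop,
    (2 : ℝ) ^ (((3 - 2 * √2) * Real.logb 2 3 - ε) * n) ≤ (b n : ℝ) := by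
  intro ε hε
  set α : ℝ := 1 - √2 / 2 with hα
  have hs : √2 * √2 = 2 := Real.mul_self_sqrt (by norm_num)
  have hs1 : 1 < √2 := by
    rw [show (1 : ℝ) = √1 from Real.sqrt_one.symm]
    exact Real.sqrt_lt_sqrt (by norm_num) (by norm_num)
  have hs2 : √2 < 2 := by nlinarith
  have hα0 : 0 ≤ α := by rw [hα]; linarith
  have hL : 0 < Real.logb 2 3 := Real.logb_pos (by norm_num) (by norm_num)
  -- the limit of `a c / ((a + c) n)`
  have h1 : Tendsto (fun n : ℕ => (⌊α * (n : ℝ)⌋₊ : ℝ) / (n : ℝ)) atTop (𝓝 α) :=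
    (tendsto_nat_floor_mul_div_atTop hα0).comp tendsto_natCast_atTop_atTop
  have h2 : Tendsto (fun n : ℕ => ((⌊α * (n : ℝ)⌋₊ : ℝ) / (n : ℝ)) *
      (1 - 2 * ((⌊α * (n : ℝ)⌋₊ : ℝ) / (n : ℝ))) / (1 - (⌊α * (n : ℝ)⌋₊ : ℝ) / (n : ℝ)))
      atTop (𝓝 (α * (1 - 2 * α) / (1 - α))) := by
    refine Tendsto.div (h1.mul (tendsto_const_nhds.sub (h1.const_mul 2)))
      (tendsto_const_nhds.sub h1) ?_
    rw [hα]
    have : (0 : ℝ) < √2 / 2 := by linarith
    intro h
    linarith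
  have h3 : α * (1 - 2 * α) / (1 - α) = 3 - 2 * √2 := by
    rw [hα]
    have : (1 - (1 - √2 / 2)) ≠ 0 := by
      intro h
      linarith
    rw [div_eq_iff this]
    nlinarith [hs]
  rw [h3] at h2
  have h4 := h2.eventually (lt_mem_nhds (show 3 - 2 * √2 - ε / Real.logb 2 3 < 3 - 2 * √2 by
    have : 0 < ε / Real.logb 2 3 := div_pos hε hL
    linarith))
  filter_upwards [h4, eventually_gt_atTop 1] with n hn hn1
  have hn0 : (0 : ℝ) < n := by
    have : 0 < n := by omega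
    exact_mod_cast this
  set a : ℕ := ⌊α * (n : ℝ)⌋₊ with ha
  have ha1 : (a : ℝ) ≤ α * n := Nat.floor_le (by positivity)
  have hα2 : 2 * α < 1 := by rw [hα]; linarith
  have ha2 : 2 * (a : ℝ) < n := by nlinarith
  have ha3 : 2 * a < n := by exact_mod_cast ha2
  obtain ⟨c, hc⟩ := Nat.exists_eq_add_of_lt ha3
  have key := pow_le n a (c + 1) (by omega)
  have hbpos : 0 < b n := by
    rcases Nat.eq_zero_or_pos (b n) with h | h
    · rw [h, zero_pow (by omega)] at key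
      have : 0 < 3 ^ (a * (c + 1)) := by positivity
      omega
    · exact h
  have hb : (0 : ℝ) < b n := by exact_mod_cast hbpos
  have key2 : ((3 : ℝ)) ^ (a * (c + 1)) ≤ (b n : ℝ) ^ (a + (c + 1)) := by exact_mod_cast key
  have key3 := (Real.logb_le_logb (b := 2) (by norm_num) (by positivity) (by positivity)).2 key2
  rw [Real.logb_pow, Real.logb_pow] at key3
  have hcn : ((c + 1 : ℕ) : ℝ) = n - 2 * a := by
    have : (n : ℝ) = 2 * a + c + 1 := by exact_mod_cast hc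
    push_cast
    linarith
  have key4 : (a : ℝ) * (n - 2 * a) * Real.logb 2 3 ≤ (n - a) * Real.logb 2 (b n) := by
    have e1 : ((a * (c + 1) : ℕ) : ℝ) = a * (n - 2 * a) := by
      rw [Nat.cast_mul, hcn]
    have e2 : ((a + (c + 1) : ℕ) : ℝ) = n - a := by
      rw [Nat.cast_add, hcn]
      ring
    rw [e1, e2] at key3
    exact key3
  have hna : (0 : ℝ) < n - a := by linarith [Nat.cast_nonneg (α := ℝ) a]
  have e3 : (a : ℝ) / n * (1 - 2 * (a / n)) / (1 - a / n) = a * (n - 2 * a) / ((n - a) * n) := by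
    have : (1 - (a : ℝ) / n) ≠ 0 := by
      rw [sub_ne_zero]
      intro h
      rw [eq_comm, div_eq_one_iff_eq hn0.ne'] at h
      linarith
    field_simp
  rw [e3] at hn
  have h5 : (3 - 2 * √2) * Real.logb 2 3 - ε ≤ a * (n - 2 * a) / ((n - a) * n) * Real.logb 2 3 := by
    have : (3 - 2 * √2 - ε / Real.logb 2 3) * Real.logb 2 3 ≤
        a * (n - 2 * a) / ((n - a) * n) * Real.logb 2 3 :=
      mul_le_mul_of_nonneg_right hn.le hL.le
    rwa [sub_mul, div_mul_cancel₀ _ hL.ne'] at this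
  have h6 : ((3 - 2 * √2) * Real.logb 2 3 - ε) * n ≤ Real.logb 2 (b n) := by
    calc ((3 - 2 * √2) * Real.logb 2 3 - ε) * n
        ≤ a * (n - 2 * a) / ((n - a) * n) * Real.logb 2 3 * n :=
          mul_le_mul_of_nonneg_right h5 hn0.le
      _ = a * (n - 2 * a) * Real.logb 2 3 / (n - a) := by
          field_simp
      _ ≤ Real.logb 2 (b n) := by
          rw [div_le_iff₀ hna]
          linarith
  calc (2 : ℝ) ^ (((3 - 2 * √2) * Real.logb 2 3 - ε) * n)
      ≤ 2 ^ (Real.logb 2 (b n)) := Real.rpow_le_rpow_of_exponent_le (by norm_num) h6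
    _ = b n := Real.rpow_logb (by norm_num) (by norm_num) hb

end Pool.Agent.Results.MP_390115_co.LowerExponent
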